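import Pool.Agent.SGL.StmtsU

/-!
# Squad SGL (MP_41797f_co), row EBH: the edges of the top slice
-/

set_option autoImplicit false

namespace Pool.Agent.SGL.H30

open Pool.Agent.SGE Pool.Agent.SGP Pool.Agent.SGY Pool.Agent.SGD Pool.Agent.SGL

theorem o_neg (p q r : ℝ × ℝ) : o p q r = -o q p r := by unfold o; ring

theorem o_neg' (p q r : ℝ × ℝ) : o p q r = -o r q p := by unfold o; ring

theorem ebh : EbhStmt := by
  intro V a b F U R k h D x y π s ρ f hE ha hU hρ ho hy
  have hP0 : ps a b k π 0 = b := by simp [ps]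
  have hPi : ∀ i, 1 ≤ i → i ≤ k → ps a b k π i = π i := by
    intro i h1 h2
    have h3 : i ≠ 0 := by omega
    simp [ps, h3, h2]
  have hPk : ps a b k π (k + 1) = a := by simp [ps]
  have hmem : ∀ i, i ≤ k → ps a b k π i ∈ U ∪ {b} := by
    intro i hi
    rcases Nat.eq_zero_or_pos i with h0 | h0
    · subst h0
      rw [hP0]
      exact Or.inr rfl
    · rw [hPi i h0 hi]
      exact Or.inl (hE.pin i h0 hi)
  have hR : ∀ i, i ≤ k → ps a b k π i ∈ R ∧ s (ps a b k π i) = h := fun i hi =>
    (hU _).1 (hmem i hi)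
  have hna : ∀ i, i ≤ k → ps a b k π i ≠ a := by
    intro i hi h0
    apply ha
    rw [← h0]
    exact (hR i hi).1
  have hx : ∀ i j, i < j → j ≤ k → x (ps a b k π i) < x (ps a b k π j) := by
    intro i j hij hj
    rw [hPi j (by omega) hj]
    rcases Nat.eq_zero_or_pos i with h0 | h0
    · subst h0
      rw [hP0]
      exact hE.xb _ (hE.pin j (by omega) hj)
    · rw [hPi i h0 (by omega)]
      exact hE.xd i j h0 hij hj
  have hr : ∀ i j, i < j → j ≤ k → ρ (ps a b k π i) < ρ (ps a b k π j) := fun i j hij hj =>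
    (hρ _ (hmem i (by omega)) _ (hmem j hj)).2 (hx i j hij hj)
  have hr' : ∀ i j, i ≤ k → j ≤ k → ρ (ps a b k π i) < ρ (ps a b k π j) → i < j := by
    intro i j hi hj hlt
    by_contra hcon
    rcases Nat.lt_or_ge j i with h1 | h1
    · have := hr j i h1 hi
      omega
    · have h2 : i = j := by omega
      subst h2
      exact lt_irrefl _ hlt
  have hsur : ∀ z ∈ R, s z = h → ∃ l, l ≤ k ∧ z = ps a b k π l := by
    intro z hz hs
    rcases (hU z).2 ⟨hz, hs⟩ with h1 | h1
    · obtain ⟨l, hl1, hl2, hl3⟩ := hE.psu z h1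
      exact ⟨l, hl2, by rw [hPi l hl1 hl2, hl3]⟩
    · exact ⟨0, Nat.zero_le _, by rw [hP0]; exact h1⟩
  refine ⟨?_, ?_, ?_, ?_⟩
  · rintro p q ⟨i, j, hij, hj, hEd, rfl, rfl⟩
    exact hR i (by omega)
  · rintro p q ⟨i, j, hij, hj, hEd, rfl, rfl⟩
    rcases Nat.lt_or_ge k j with h1 | h1
    · have h2 : j = k + 1 := by omega
      left
      rw [h2, hPk]
    · right
      exact ⟨hna j h1, (hR j h1).1, (hR j h1).2, hr i j hij h1⟩
  · rintro p q ⟨i, j, hij, hj, hEd, rfl, rfl⟩ z hz hsz hρz hq
    obtain ⟨l, hl, rfl⟩ := hsur z hz hsz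
    have hil : i < l := hr' i l (by omega) hl hρz
    rcases Nat.lt_or_ge k j with h1 | h1
    · have h2 : j = k + 1 := by omega
      subst h2
      rw [hPk]
      have h3 := hE.h0 i l hil hl hEd
      have h4 := hy _ (hmem l hl) _ (hmem i (by omega)) h3
      rw [o_neg']
      linarith
    · have h2 : l < j := by
        rcases hq with h3 | h3
        · exact absurd h3 (hna j h1)
        · exact hr' l j hl h1 h3
      have h3 := hE.hi i l j hil h2 h1 hEd
      rw [ho _ (hmem i (by omega)) _ (hmem j h1) _ (hmem l hl), o_neg]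
      linarith
  · rintro p q p' q' ⟨i, j, hij, hj, hEd, rfl, rfl⟩ ⟨i', j', hij', hj', hEd', rfl, rfl⟩ hρp hq
    rcases Nat.lt_or_ge k j with h1 | h1
    · have h2 : j = k + 1 := by omega
      left
      rw [h2, hPk]
    · right
      have h2 : i' < j := by
        rcases hq with h3 | h3
        · exact absurd h3 (hna j h1)
        · exact hr' i' j (by omega) h1 h3
      have h3 : i < i' := hr' i i' (by omega) (by omega) hρp
      have h4 : j' ≤ j := by
        by_contra hcon
        have h5 := (hEd i' h3 h2).2 h1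
        have h6 := (hEd' j h2 (by omega)).1 (by omega)
        omega
      refine ⟨hna j' (by omega), ?_⟩
      rcases Nat.lt_or_ge j' j with h5 | h5
      · exact (hr j' j h5 h1).le
      · have h6 : j' = j := by omega
        rw [h6]

end Pool.Agent.SGL.H30

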